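import Pool.Agent.helper57.MS.Spec

set_option autoImplicit false

open Finset

namespace Pool.Agent.helper57.MS

open Pool.Agent.RRank Pool.Agent.helper26.IM

theorem ITR_span (𝓅 : Ultrafilter ℕ) (K : ℕ → Type) [∀ n, Field (K n)] (d : ℕ)
    (Q : ℕ → Fin d → Type) (F : FSys (UF 𝓅 K) (Fin d) (fun α => (n : ℕ) → Q n α))
    (hF : ∀ (S : Finset (Fin d)) (f : ((α : Fin d) → (n : ℕ) → Q n α) → UF 𝓅 K),
      f ∈ F.E S ↔ Int 𝓅 K Q S f) (hd : 0 < d) (PP : Set (IndexPartition d))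
    (f : ((α : Fin d) → (n : ℕ) → Q n α) → UF 𝓅 K) (hf : f ∈ F.Fs PP) :
    ∃ (N : ℕ) (φ : (n : ℕ) → ((α : Fin d) → Q n α) → K n), (∀ n, SumOf PP (φ n) N) ∧
      ∀ x, f x = UF.mk 𝓅 (fun n => φ n (fun α => x α n)) := by
  classical
  have hne : ∀ P ∈ PP, P.parts.Nonempty := by
    intro P _
    apply P.parts_nonempty
    intro h0
    have h1 : (⟨0, hd⟩ : Fin d) ∈ (univ : Finset (Fin d)) := mem_univ _
    rw [h0] at h1
    exact absurd h1 (Finset.notMem_empty _)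
  unfold FSys.Fs at hf
  induction hf using Submodule.span_induction with
  | mem f hf =>
    obtain ⟨P, hP, h, hh, rfl⟩ := hf
    have h1 : ∀ I : Finset (Fin d), ∃ φ : (n : ℕ) → ((α : Fin d) → Q n α) → K n,
        I ∈ P.parts → (∀ n, DependsOn (φ n) (I : Set (Fin d))) ∧
          ∀ x, h I x = UF.mk 𝓅 (fun n => φ n (fun α => x α n)) := by
      intro I
      by_cases hI : I ∈ P.parts
      · obtain ⟨φ, h2, h3⟩ := (hF I (h I)).1 (hh I hI)
        exact ⟨φ, fun _ => ⟨h2, h3⟩⟩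
      · exact ⟨fun _ _ => 0, fun h2 => absurd h2 hI⟩
    choose φ hφ using h1
    refine ⟨1, fun n x => ∏ I ∈ P.parts, φ I n x, fun n => SumOf.one ?_, fun x => ?_⟩
    · exact rankLEOne_iff.2 ⟨P, hP, fun I => φ I n, fun I hI => (hφ I hI).1 n, fun x => rfl⟩
    · rw [Finset.prod_apply]
      have e : (fun n => ∏ I ∈ P.parts, φ I n (fun α => x α n)) =
          ∏ I ∈ P.parts, fun n => φ I n (fun α => x α n) := by
        funext n
        rw [Finset.prod_apply]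
      rw [e, map_prod]
      exact Finset.prod_congr rfl fun I hI => (hφ I hI).2 x
  | zero =>
    refine ⟨0, fun n _ => 0, fun n => SumOf.zero, fun x => ?_⟩
    exact (map_zero (UF.mk 𝓅 : (∀ n, K n) →+* UF 𝓅 K)).symm
  | add f g _ _ ihf ihg =>
    obtain ⟨N₁, φ₁, h1, h2⟩ := ihf
    obtain ⟨N₂, φ₂, h3, h4⟩ := ihg
    refine ⟨N₁ + N₂, fun n x => φ₁ n x + φ₂ n x, fun n => (h1 n).add (h3 n), fun x => ?_⟩
    rw [Pi.add_apply, h2, h4, ← map_add]
    rfl
  | smul c f _ ih =>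
    obtain ⟨N, φ, h1, h2⟩ := ih
    obtain ⟨γ, rfl⟩ := UF.mk_surjective 𝓅 c
    refine ⟨N, fun n x => γ n * φ n x, fun n => (h1 n).smul hne (γ n), fun x => ?_⟩
    rw [Pi.smul_apply, h2, smul_eq_mul, ← map_mul]
    rfl

theorem ITR : ITR_stmt := by
  intro 𝓅 K _ d Q F hF hd hne PP T hT
  obtain ⟨N, φ, h1, h2⟩ := ITR_span 𝓅 K d Q F hF hd PP _ hT
  refine ⟨N, ?_⟩
  have h3 : ∀ᶠ n in (𝓅 : Filter ℕ), T n = φ n := by
    by_contra h4
    rw [← Ultrafilter.eventually_not] at h4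
    have h5 : ∀ n, ∃ y : (α : Fin d) → Q n α, T n ≠ φ n → T n y ≠ φ n y := by
      intro n
      by_cases h6 : T n = φ n
      · exact ⟨fun α => (hne n α).some, fun h7 => absurd h6 h7⟩
      · obtain ⟨y, hy⟩ := Function.ne_iff.1 h6
        exact ⟨y, fun _ => hy⟩
    choose y hy using h5
    have h6 := h2 (fun α n => y n α)
    rw [UF.mk_eq_mk] at h6
    obtain ⟨n, hn1, hn2⟩ := (h4.and h6).exists
    exact hy n hn1 hn2
  filter_upwards [h3] with n hn
  rw [hn]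
  exact h1 n

end Pool.Agent.helper57.MS
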