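import Pool.Agent.helper57.MS.Spec

set_option autoImplicit false

open Finset

namespace Pool.Agent.helper57.MS

open Pool.Agent.RRank Pool.Agent.helper26.IM

theorem ITU_fin (𝓅 : Ultrafilter ℕ) {β : Type} [Finite β] (f : ℕ → β) :
    ∃ b, ∀ᶠ n in (𝓅 : Filter ℕ), f n = b := by
  obtain ⟨b, hb⟩ := (𝓅.map f).eq_pure_of_finite
  refine ⟨b, ?_⟩
  have h1 : {b} ∈ 𝓅.map f := by
    rw [hb]
    exact Set.mem_singleton b
  rw [Ultrafilter.mem_map] at h1
  exact h1

theorem ITU_one (𝓅 : Ultrafilter ℕ) (K : ℕ → Type) [∀ n, Field (K n)] (d : ℕ)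
    (Q : ℕ → Fin d → Type) (F : FSys (UF 𝓅 K) (Fin d) (fun α => (n : ℕ) → Q n α))
    (hF : ∀ (S : Finset (Fin d)) (f : ((α : Fin d) → (n : ℕ) → Q n α) → UF 𝓅 K),
      f ∈ F.E S ↔ Int 𝓅 K Q S f) (R : Set (IndexPartition d))
    (t : (n : ℕ) → ((α : Fin d) → Q n α) → K n) (ht : ∀ n, RankLEOne R (t n)) :
    (fun x => UF.mk 𝓅 (fun n => t n (fun α => x α n))) ∈ F.Fs R := by
  classical
  have h1 := fun n => rankLEOne_iff.1 (ht n)
  choose P hP b hb hbt using h1
  obtain ⟨P₀, hP₀⟩ := ITU_fin 𝓅 P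
  have hmem : P₀ ∈ R := by
    obtain ⟨n, hn⟩ := hP₀.exists
    rw [← hn]
    exact hP n
  let φ : Finset (Fin d) → (n : ℕ) → ((α : Fin d) → Q n α) → K n := fun I n =>
    if P n = P₀ ∧ I ∈ P₀.parts then b n I else 0
  refine Submodule.subset_span ⟨P₀, hmem,
    fun I x => UF.mk 𝓅 (fun n => φ I n (fun α => x α n)), ?_, ?_⟩
  · intro I hI
    rw [hF]
    refine ⟨φ I, fun n => ?_, fun x => rfl⟩
    show DependsOn (if P n = P₀ ∧ I ∈ P₀.parts then b n I else 0) (I : Set (Fin d))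
    split_ifs with h2
    · refine hb n I ?_
      rw [h2.1]
      exact h2.2
    · intro x y _
      rfl
  · funext x
    rw [Finset.prod_apply, ← map_prod]
    rw [UF.mk_eq_mk]
    filter_upwards [hP₀] with n hn
    rw [Finset.prod_apply, hbt n, hn]
    refine Finset.prod_congr rfl fun I hI => ?_
    show b n I _ = (if P n = P₀ ∧ I ∈ P₀.parts then b n I else 0) _
    rw [if_pos ⟨hn, hI⟩]

theorem ITU : ITU_stmt := by
  intro 𝓅 K _ d Q F hF R T r hT
  choose t ht hTt using hT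
  have e : (fun x : (α : Fin d) → (n : ℕ) → Q n α => UF.mk 𝓅 (fun n => T n (fun α => x α n))) =
      ∑ j : Fin r, fun x : (α : Fin d) → (n : ℕ) → Q n α => UF.mk 𝓅 (fun n => t n j (fun α => x α n)) := by
    funext x
    rw [Finset.sum_apply, ← map_sum]
    congr 1
    funext n
    rw [Finset.sum_apply, hTt n]
  rw [e]
  exact Submodule.sum_mem _ fun j _ => ITU_one 𝓅 K d Q F hF R (fun n => t n j) fun n => ht n j

end Pool.Agent.helper57.MS
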