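import Pool.Agent.helper57.MS.Spec2

set_option autoImplicit false

open Finset

namespace Pool.Agent.helper57.MS

open Pool.Agent.RRank Pool.Agent.helper26.IM

theorem QDS (hSRK : SRK_stmt) : QDS_stmt := by
  intro d 𝓚 R R' h1 h2 hQ l
  obtain ⟨G, hG⟩ := hQ l
  refine ⟨G, ?_⟩
  intro K iK hK Q _ T hT
  have e : ∀ (Q : Fin d → Type) (T : ((α : Fin d) → Q α) → K), rank R T = rank R' T := by
    intro Q T
    exact le_antisymm (hSRK K d Q R R' h2 T).2 (hSRK K d Q R' R h1 T).2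
  rw [← e Q T] at hT
  obtain ⟨X, hX, hr⟩ := hG K iK hK Q T hT
  refine ⟨X, hX, ?_⟩
  rw [← e]
  exact hr

end Pool.Agent.helper57.MS
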